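import Mathlib

namespace Pool.Agent.Results.MP_68c038_an.Cont
open Set Filter Topology Metric

section
variable {X : Type*} [NormedAddCommGroup X] [NormedSpace ℝ X]

lemma le_one_iff (x y : X) : ‖x - y‖ ≤ 1 ↔ ∀ z, ‖z - x‖ < 1 → ‖z - y‖ < 2 := by
  constructor
  · intro h z hz
    have := norm_sub_le_norm_sub_add_norm_sub z x y
    linarith
  · intro h
    by_contra h1
    push Not at h1
    have h2 := h x (by simp)
    have hd : 0 < ‖x - y‖ := by linarith
    have hc : 0 ≤ (2 - ‖x - y‖) / ‖x - y‖ := div_nonneg (by linarith) hd.le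
    have h3 := h (x + ((2 - ‖x - y‖) / ‖x - y‖) • (x - y)) (by
      rw [add_sub_cancel_left, norm_smul, Real.norm_eq_abs, abs_of_nonneg hc,
        div_mul_cancel₀ _ hd.ne']
      linarith)
    have e : x + ((2 - ‖x - y‖) / ‖x - y‖) • (x - y) - y =
        (1 + (2 - ‖x - y‖) / ‖x - y‖) • (x - y) := by
      rw [add_smul, one_smul]; abel
    rw [e, norm_smul, Real.norm_eq_abs, abs_of_nonneg (by linarith), add_mul,
      div_mul_cancel₀ _ hd.ne'] at h3
    linarith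

lemma ball_iff (a y : X) {r : ℝ} (hr0 : 0 ≤ r) (hr : r ≤ 1) :
    ‖y - a‖ ≤ r ↔ ∀ w, ‖w - a‖ ≤ 1 - r → ‖y - w‖ ≤ 1 := by
  constructor
  · intro h w hw
    have := norm_sub_le_norm_sub_add_norm_sub y a w
    rw [norm_sub_rev a w] at this
    linarith
  · intro h
    by_contra h1
    push Not at h1
    have hd : 0 < ‖y - a‖ := by linarith
    have hc : 0 ≤ (1 - r) / ‖y - a‖ := div_nonneg (by linarith) hd.le
    have h3 := h (a - ((1 - r) / ‖y - a‖) • (y - a)) (by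
      rw [sub_sub_cancel_left, norm_neg, norm_smul, Real.norm_eq_abs, abs_of_nonneg hc,
        div_mul_cancel₀ _ hd.ne'])
    have e : y - (a - ((1 - r) / ‖y - a‖) • (y - a)) = (1 + (1 - r) / ‖y - a‖) • (y - a) := by
      rw [add_smul, one_smul]; abel
    rw [e, norm_smul, Real.norm_eq_abs, abs_of_nonneg (by linarith), add_mul,
      div_mul_cancel₀ _ hd.ne'] at h3
    linarith

variable {T : X → X} (hT : Function.Surjective T)
  (h1 : ∀ x y, ‖x - y‖ < 1 ↔ ‖T x - T y‖ < 1) (h2 : ∀ x y, ‖x - y‖ < 2 ↔ ‖T x - T y‖ < 2)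
include hT h1 h2

lemma pres (x y : X) : ‖x - y‖ ≤ 1 ↔ ‖T x - T y‖ ≤ 1 := by
  rw [le_one_iff, le_one_iff (T x), hT.forall (p := fun z => ‖z - T x‖ < 1 → ‖z - T y‖ < 2)]
  simp only [← h1, ← h2]

lemma pre_eq (a : X) {r : ℝ} (hr0 : 0 ≤ r) (hr : r ≤ 1) :
    {y | ‖T y - a‖ ≤ r} = ⋂ w ∈ {w | ‖T w - a‖ ≤ 1 - r}, closedBall w 1 := by
  ext y
  simp only [mem_ofPred_eq, mem_iInter, mem_closedBall, dist_eq_norm]
  rw [ball_iff a _ hr0 hr, hT.forall]
  simp only [← pres hT h1 h2]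

lemma pre_closed (a : X) {r : ℝ} (hr0 : 0 ≤ r) (hr : r ≤ 1) : IsClosed {y | ‖T y - a‖ ≤ r} := by
  rw [pre_eq hT h1 h2 a hr0 hr]
  exact isClosed_biInter fun _ _ => isClosed_closedBall

lemma pre_convex (a : X) {r : ℝ} (hr0 : 0 ≤ r) (hr : r ≤ 1) : Convex ℝ {y | ‖T y - a‖ ≤ r} := by
  rw [pre_eq hT h1 h2 a hr0 hr]
  exact convex_iInter₂ fun _ _ => convex_closedBall _ _

lemma ray (x v : X) {r : ℝ} (hr : 0 < r) : ∃ t : ℝ, 0 < t ∧ ‖T (x + t • v) - T x‖ ≤ r := by
  by_contra H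
  push Not at H
  set t1 : ℝ := 1 / (‖v‖ + 1) with ht1
  have ht1p : 0 < t1 := by positivity
  let y : ℝ → X := fun t => T (x + t • v) - T x
  have hy1 : ∀ t, 0 < t → t ≤ t1 → ‖y t‖ ≤ 1 := by
    intro t ht ht'
    refine (pres hT h1 h2 _ _).1 ?_
    rw [add_sub_cancel_left, norm_smul, Real.norm_eq_abs, abs_of_pos ht]
    rw [ht1, le_div_iff₀ (by positivity)] at ht'
    nlinarith
  let D : Set ℝ := {d | ∃ t, 0 < t ∧ t ≤ t1 ∧ d = ‖y t‖}
  have hDne : D.Nonempty := ⟨_, t1, ht1p, le_rfl, rfl⟩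
  have hDb : ∀ d ∈ D, r ≤ d := by
    rintro d ⟨t, ht, -, rfl⟩
    exact (H t ht).le
  set d := sInf D with hd
  have hrd : r ≤ d := le_csInf hDne hDb
  have hdle : ∀ t, 0 < t → t ≤ t1 → d ≤ ‖y t‖ := fun t ht ht' =>
    csInf_le ⟨r, hDb⟩ ⟨t, ht, ht', rfl⟩
  have hd1 : d ≤ 1 := (hdle t1 ht1p le_rfl).trans (hy1 t1 ht1p le_rfl)
  have hd0 : 0 < d := hr.trans_le hrd
  obtain ⟨N, ⟨t0, ht0, ht0', rfl⟩, hN⟩ := exists_lt_of_csInf_lt hDne
    (show d < d / (1 - d / 4) by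
      rw [lt_div_iff₀ (by linarith)]; nlinarith)
  rw [lt_div_iff₀ (by linarith)] at hN
  have hN0 : 0 < ‖y t0‖ := hd0.trans_le (hdle t0 ht0 ht0')
  have hN1 := hy1 t0 ht0 ht0'
  set l : ℝ := (1 - d / 2) / ‖y t0‖ with hl
  have hl0 : 0 ≤ l := div_nonneg (by linarith) hN0.le
  have hlN : l * ‖y t0‖ = 1 - d / 2 := div_mul_cancel₀ _ hN0.ne'
  obtain ⟨w, hw⟩ := hT (T x - l • y t0)
  have hw1 : ‖w - x‖ < 1 := by
    rw [h1, hw, sub_sub_cancel_left, norm_neg, norm_smul, Real.norm_eq_abs, abs_of_nonneg hl0]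
    linarith
  have hw2 : ∀ s, 0 < s → s ≤ t0 → 1 ≤ ‖x + s • v - w‖ := by
    intro s hs hs'
    have hmid : ‖y s - (1 / 2 : ℝ) • y t0‖ ≤ ‖y t0‖ / 2 := by
      have hc := pre_convex hT h1 h2 (T x + (1 / 2 : ℝ) • y t0) (r := ‖y t0‖ / 2)
        (by linarith) (by linarith)
      have a1 : x ∈ {z | ‖T z - (T x + (1 / 2 : ℝ) • y t0)‖ ≤ ‖y t0‖ / 2} := by
        simp only [mem_ofPred_eq, sub_add_cancel_left, norm_neg, norm_smul]
        rw [Real.norm_eq_abs, abs_of_pos (by norm_num)]; linarith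
      have a2 : x + t0 • v ∈ {z | ‖T z - (T x + (1 / 2 : ℝ) • y t0)‖ ≤ ‖y t0‖ / 2} := by
        have e : T (x + t0 • v) - (T x + (1 / 2 : ℝ) • y t0) = (1 / 2 : ℝ) • y t0 := by
          rw [← sub_sub]
          change y t0 - _ = _
          module
        simp only [mem_ofPred_eq, e, norm_smul]
        rw [Real.norm_eq_abs, abs_of_pos (by norm_num)]; linarith
      have a3 := hc.add_smul_mem a1 a2 (t := s / t0) ⟨by positivity, (div_le_one ht0).2 hs'⟩
      rw [smul_smul, div_mul_cancel₀ _ ht0.ne'] at a3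
      simp only [mem_ofPred_eq, ← sub_sub] at a3
      exact a3
    by_contra h3
    push Not at h3
    rw [h1, hw] at h3
    have e : T (x + s • v) - (T x - l • y t0) = y s + l • y t0 := by
      simp only [y]; abel
    rw [e] at h3
    have e2 : (1 + 2 * l) • y s = (y s + l • y t0) + (2 * l) • (y s - (1 / 2 : ℝ) • y t0) := by
      module
    have h4 := norm_add_le (y s + l • y t0) ((2 * l) • (y s - (1 / 2 : ℝ) • y t0))
    rw [← e2, norm_smul, norm_smul, Real.norm_eq_abs, Real.norm_eq_abs,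
      abs_of_nonneg (by linarith), abs_of_nonneg (by linarith)] at h4
    have h5 := hdle s hs (hs'.trans ht0')
    have h6 : (1 + 2 * l) * d ≤ (1 + 2 * l) * ‖y s‖ := mul_le_mul_of_nonneg_left h5 (by linarith)
    have h7 : 2 * l * ‖y s - (1 / 2 : ℝ) • y t0‖ ≤ 2 * l * (‖y t0‖ / 2) :=
      mul_le_mul_of_nonneg_left hmid (by linarith)
    have h8 : l * (‖y t0‖ * (1 - d / 4)) ≤ l * d := mul_le_mul_of_nonneg_left hN.le hl0
    rw [← mul_assoc, hlN] at h8
    nlinarith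
  have hlim : Tendsto (fun s : ℝ => ‖x + s • v - w‖) (𝓝[>] 0) (𝓝 ‖x + (0 : ℝ) • v - w‖) :=
    (Continuous.tendsto (by fun_prop) _).mono_left nhdsWithin_le_nhds
  have h9 := ge_of_tendsto hlim (by
    filter_upwards [Ioc_mem_nhdsGT ht0] with s hs using hw2 s hs.1 hs.2)
  rw [zero_smul, add_zero, norm_sub_rev] at h9
  linarith

lemma cont [CompleteSpace X] : Continuous T := by
  refine continuous_iff_continuousAt.2 fun x => ?_
  have key : ∀ r, 0 < r → r ≤ 1 → {y | ‖T y - T x‖ ≤ r} ∈ 𝓝 x := by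
    intro r hr hr1
    set C := {y | ‖T y - T x‖ ≤ r}
    have hC : Convex ℝ C := pre_convex hT h1 h2 _ hr.le hr1
    have hCc : IsClosed C := pre_closed hT h1 h2 _ hr.le hr1
    have hx : x ∈ C := by simp [C, hr.le]
    have hsm : ∀ v : X, ∃ t : ℝ, 0 < t ∧ ∀ s, 0 ≤ s → s ≤ t → x + s • v ∈ C := by
      intro v
      obtain ⟨t, ht, ht2⟩ := ray hT h1 h2 x v hr
      refine ⟨t, ht, fun s hs hs' => ?_⟩
      have a3 := hC.add_smul_mem hx ht2 (t := s / t) ⟨by positivity, (div_le_one ht).2 hs'⟩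
      rwa [smul_smul, div_mul_cancel₀ _ ht.ne'] at a3
    let A : ℕ → Set X := fun n => {v | x + (1 / ((n : ℝ) + 1)) • v ∈ C}
    obtain ⟨n, a, ha⟩ := nonempty_interior_of_iUnion_of_closed (f := A)
      (fun n => hCc.preimage (by fun_prop)) (by
        refine eq_univ_of_forall fun v => ?_
        obtain ⟨t, ht, ht2⟩ := hsm v
        obtain ⟨n, hn⟩ := exists_nat_one_div_lt ht
        exact mem_iUnion.2 ⟨n, ht2 _ (by positivity) hn.le⟩)
    have hb : x + (1 / ((n : ℝ) + 1)) • a ∈ interior C := by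
      rw [mem_interior_iff_mem_nhds] at ha ⊢
      have hcont : Continuous fun z : X => ((n : ℝ) + 1) • (z - x) := by fun_prop
      have h3 := hcont.continuousAt (x := x + (1 / ((n : ℝ) + 1)) • a)
      have e : ((n : ℝ) + 1) • (x + (1 / ((n : ℝ) + 1)) • a - x) = a := by
        rw [add_sub_cancel_left, smul_smul, mul_one_div_cancel (by positivity), one_smul]
      have h4 := h3.preimage_mem_nhds (by rw [e]; exact ha)
      filter_upwards [h4] with z hz
      have : x + (1 / ((n : ℝ) + 1)) • ((n : ℝ) + 1) • (z - x) ∈ C := hz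
      rwa [smul_smul, one_div_mul_cancel (by positivity), one_smul, add_sub_cancel] at this
    set b := (1 / ((n : ℝ) + 1)) • a
    obtain ⟨t, ht, ht2⟩ := hsm (-b)
    have h5 := hC.combo_interior_self_mem_interior hb (ht2 t ht.le le_rfl)
      (a := t / (1 + t)) (b := 1 / (1 + t)) (by positivity) (by positivity) (by field_simp; ring)
    have e : (t / (1 + t)) • (x + b) + (1 / (1 + t)) • (x + t • -b) = x := by
      have : (1 + t) ≠ 0 := by positivity
      match_scalars <;> field_simp <;> ring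
    rw [e] at h5
    exact mem_interior_iff_mem_nhds.1 h5
  refine Metric.tendsto_nhds.2 fun ε hε => ?_
  filter_upwards [key (min (ε / 2) 1) (lt_min (half_pos hε) one_pos) (min_le_right _ _)] with y hy
  rw [dist_eq_norm]
  have := min_le_left (ε / 2) 1
  have h3 : ‖T y - T x‖ ≤ min (ε / 2) 1 := hy
  linarith
end

theorem result (X : Type*) [NormedAddCommGroup X] [NormedSpace ℝ X] [CompleteSpace X]
    (T : X → X) (hT : Function.Bijective T) (h : ∀ x y, ⌊‖x - y‖⌋ = ⌊‖T x - T y‖⌋) :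
    Continuous T := by
  refine cont hT.2 (fun x y => ?_) (fun x y => ?_)
  · have e : ∀ a : ℝ, a < 1 ↔ ⌊a⌋ < 1 := fun a => by rw [Int.floor_lt]; simp
    rw [e, e, h]
  · have e : ∀ a : ℝ, a < 2 ↔ ⌊a⌋ < 2 := fun a => by rw [Int.floor_lt]; simp
    rw [e, e, h]

end Pool.Agent.Results.MP_68c038_an.Cont
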